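import Pool.Agent.PLX.StmtsA

/-! # Squad PLX (MP_1fc801_co), row MUL: the operators have bounded denominators and norms -/

set_option autoImplicit false

namespace Pool.Agent.PLX.H26

theorem mul (hT : TraStmt) : MulStmt := by
  intro A _ _ E _ _ Φ f G N W j H t₁ t₂ k l S hN ht1 ht2 hk hl h12 hk1 hk2 hl1 hl2 hS x hx hxn
  obtain ⟨z₀, hz₀, hxz, hSz⟩ := hS x
  have hH : 1 ≤ H := hN.hH
  have hf0 : 0 ≤ ‖f (x : A)‖ := norm_nonneg _
  have hH2 : 1 ≤ H ^ 2 := one_le_pow₀ hH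
  have hH3 : 1 ≤ H ^ 3 := one_le_pow₀ hH
  have hH4 : H ≤ H ^ 4 := by
    have : H * 1 ≤ H * H ^ 3 := mul_le_mul_of_nonneg_left hH3 (by linarith)
    calc H = H * 1 := (mul_one H).symm
      _ ≤ H * H ^ 3 := this
      _ = H ^ 4 := by ring
  have h1 : ‖f (x : A)‖ * (H + 1) ≤ 1 := by
    have : ‖f (x : A)‖ * (H + 1) ≤ ‖f (x : A)‖ * (256 * H ^ 4) :=
      mul_le_mul_of_nonneg_left (by linarith) hf0
    linarith
  obtain ⟨c, hc1, hcH, y, hy, z, hz, hxyz, -, hfz⟩ :=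
    hT A E Φ f G N W j H t₁ k t₂ hN ht1 hk ht2 hk1.symm h12 hk2 (x : A) ⟨hx, x.2⟩ h1
  have hfz1 : ‖f z‖ * (H + 1) ≤ 1 := by
    have e1 : ‖f z‖ * (H + 1) ≤ 16 * H ^ 2 * ‖f (x : A)‖ * (H + 1) :=
      mul_le_mul_of_nonneg_right hfz (by linarith)
    have e2 : 16 * H ^ 2 * (H + 1) ≤ 256 * H ^ 4 := by
      have e3 : H + 1 ≤ 2 * H ^ 2 := by nlinarith
      have e4 : 16 * H ^ 2 * (H + 1) ≤ 16 * H ^ 2 * (2 * H ^ 2) :=
        mul_le_mul_of_nonneg_left e3 (by positivity)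
      nlinarith [pow_nonneg (by linarith : (0 : ℝ) ≤ H) 4]
    have e5 : 16 * H ^ 2 * (H + 1) * ‖f (x : A)‖ ≤ 256 * H ^ 4 * ‖f (x : A)‖ :=
      mul_le_mul_of_nonneg_right e2 hf0
    linarith
  obtain ⟨c', hc1', hcH', w, hw, v, hv, hzwv, -, hfv⟩ :=
    hT A E Φ f G N W j H t₂ l t₁ hN ht2 hl ht1 hl2.symm h12.symm hl1 z hz hfz1
  -- `z` is a multiple of `z₀`
  have hz1 : z = c • z₀ := by
    have e1 : z - c • z₀ ∈ N k := by
      have e2 : z - c • z₀ = c • ((x : A) - z₀) - y := by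
        rw [smul_sub, hxyz]
        abel
      rw [e2]
      exact (N k).sub_mem ((N k).smul_of_tower_mem c hxz) hy.2
    have e3 : z - c • z₀ ∈ N t₂ := (N t₂).sub_mem hz.2 ((N t₂).smul_of_tower_mem c hz₀)
    exact sub_eq_zero.1 (Submodule.disjoint_def.1 (hN.dis k hk t₂ ht2 hk2) _ e1 e3)
  have hv1 : v = (c * c') • (S x : A) := by
    have e1 : v - (c * c') • (S x : A) ∈ N l := by
      have e2 : v - (c * c') • (S x : A) = -w - (c * c') • ((S x : A) - z₀) := by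
        have e3 : (c * c') • z₀ = w + v := by
          rw [← hzwv, hz1, smul_smul, mul_comm]
        rw [smul_sub, e3]
        abel
      rw [e2]
      exact (N l).sub_mem ((N l).neg_mem hw.2) ((N l).smul_of_tower_mem (c * c') hSz)
    have e3 : v - (c * c') • (S x : A) ∈ N t₁ :=
      (N t₁).sub_mem hv.2 ((N t₁).smul_of_tower_mem (c * c') (S x).2)
    exact sub_eq_zero.1 (Submodule.disjoint_def.1 (hN.dis l hl t₁ ht1 hl1) _ e1 e3)
  have hcoe : (((c * c') • S x : N t₁) : A) = v := by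
    rw [hv1]
    rfl
  refine ⟨c * c', ?_, ?_, ?_, ?_⟩
  · exact Nat.one_le_iff_ne_zero.2 (Nat.mul_ne_zero (by omega) (by omega))
  · push_cast
    have e1 : (c : ℝ) * c' ≤ H * H :=
      mul_le_mul hcH hcH' (Nat.cast_nonneg _) (by linarith)
    have e2 : H * H ≤ 256 * H ^ 4 := by
      have : H ^ 2 * 1 ≤ H ^ 2 * H ^ 2 := mul_le_mul_of_nonneg_left hH2 (by positivity)
      nlinarith [pow_nonneg (by linarith : (0 : ℝ) ≤ H) 4]
    linarith
  · rw [mem_Gr, hcoe]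
    exact hv.1
  · rw [fr_apply, fr_apply, hcoe]
    have e1 : 16 * H ^ 2 * ‖f z‖ ≤ 16 * H ^ 2 * (16 * H ^ 2 * ‖f (x : A)‖) :=
      mul_le_mul_of_nonneg_left hfz (by positivity)
    have e2 : 16 * H ^ 2 * (16 * H ^ 2 * ‖f (x : A)‖) = 256 * H ^ 4 * ‖f (x : A)‖ := by ring
    linarith

end Pool.Agent.PLX.H26
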